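import Mathlib
import Pool.Agent.V1125.Sccp.Sym

/-!
# MP_d39bc3_gt: collinear section centroids do not characterise quadrics
-/

set_option autoImplicit false

namespace Pool.Agent.Results.MP_d39bc3_gt.CollinearCentroids

open Set MeasureTheory Module V1125.Sccp
open scoped ContDiff

/-- The Euclidean space of dimension `n + 1`. -/
abbrev E (n : ℕ) : Type := EuclideanSpace ℝ (Fin (n + 1))

/-- The centroid of a set: the average of `x` with respect to the `n`-dimensional Hausdorff
measure. -/
noncomputable def centroid (n : ℕ) (S : Set (E n)) : E n := ⨍ x in S, x ∂(μH[(n : ℝ)])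

/-- The section `(x + M) ∩ Ω`. -/
def section' {n : ℕ} (M : Submodule ℝ (E n)) (x : E n) (Ω : Set (E n)) : Set (E n) :=
  {y | y - x ∈ M} ∩ Ω

/-- The section-centroid collinearity property. -/
def SCCP (n : ℕ) (Ω : Set (E n)) : Prop :=
  ∀ M : Submodule ℝ (E n), finrank ℝ M = n → (∀ x, Bornology.IsBounded (section' M x Ω)) →
    ∃ p v : E n, v ≠ 0 ∧ ∀ x, (section' M x (interior Ω)).Nonempty →
      ∃ s : ℝ, centroid n (section' M x Ω) = p + s • v

/-- A strictly convex domain. -/
def IsStrictlyConvexDomain {n : ℕ} (Ω : Set (E n)) : Prop :=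
  IsOpen Ω ∧ Ω.Nonempty ∧ Convex ℝ Ω ∧ StrictConvex ℝ (closure Ω)

/-- The boundary is smooth: near each boundary point, the domain is given by a regular smooth
inequality. -/
def HasSmoothBoundary {n : ℕ} (Ω : Set (E n)) : Prop :=
  ∀ x ∈ frontier Ω, ∃ (U : Set (E n)) (F : E n → ℝ), IsOpen U ∧ x ∈ U ∧ ContDiff ℝ ∞ F ∧
    fderiv ℝ F x ≠ 0 ∧ Ω ∩ U = {y | 0 < F y} ∩ U

/-- Ellipsoids: affine images of the unit sphere. -/
def IsEllipsoid {n : ℕ} (S : Set (E n)) : Prop :=
  ∃ e : E n ≃ᵃ[ℝ] E n, S = e '' {x | ∑ i, (x i) ^ 2 = 1}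

/-- Elliptic paraboloids: affine images of the standard one. -/
def IsParaboloid {n : ℕ} (S : Set (E n)) : Prop :=
  ∃ e : E n ≃ᵃ[ℝ] E n, S = e '' {x | x 0 = ∑ i : Fin n, (x i.succ) ^ 2}

/-- One sheet of a two-sheeted hyperboloid: affine images of the standard one. -/
def IsHyperboloidSheet {n : ℕ} (S : Set (E n)) : Prop :=
  ∃ e : E n ≃ᵃ[ℝ] E n, S = e '' {x | 0 < x 0 ∧ (x 0) ^ 2 = 1 + ∑ i : Fin n, (x i.succ) ^ 2}

/-- `S` is not contained in a quadric hypersurface. -/
def InNoQuadric {n : ℕ} (S : Set (E n)) : Prop :=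
  ∀ (B : E n →ₗ[ℝ] E n →ₗ[ℝ] ℝ) (l : E n →ₗ[ℝ] ℝ) (k : ℝ),
    (∀ x ∈ S, B x x + l x + k = 0) → ∀ x, B x x + l x + k = 0

/-- The recession cone. -/
def recCone {n : ℕ} (Ω : Set (E n)) : Set (E n) :=
  {d | ∀ x ∈ Ω, ∀ t : ℝ, 0 ≤ t → x + t • d ∈ Ω}

/-- The dimension of the span of the recession cone. -/
noncomputable def recDim {n : ℕ} (Ω : Set (E n)) : ℕ :=
  finrank ℝ (Submodule.span ℝ (recCone Ω))

section

variable {n r m : ℕ} (c : Fin r × Fin (m + 1) ≃ Fin (n + 1))

theorem not_image (hr : 3 ≤ r) (e : E n ≃ᵃ[ℝ] E n) (B0 : E n →ₗ[ℝ] E n →ₗ[ℝ] ℝ)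
    (l0 : E n →ₗ[ℝ] ℝ) (k0 : ℝ) (S0 : Set (E n)) (hS0 : ∀ y ∈ S0, B0 y y + l0 y + k0 = 0)
    (y1 : E n) (hy1 : B0 y1 y1 + l0 y1 + k0 ≠ 0) : frontier (Dom c) ≠ e '' S0 := by
  intro h
  let L : E n →ₗ[ℝ] E n := (e.symm.linear : E n →ₗ[ℝ] E n)
  let v : E n := e.symm 0
  have hL : ∀ x, e.symm x = L x + v := by
    intro x
    have h1 := e.symm.map_vadd 0 x
    simpa [L, v] using h1
  have key := not_quadric c hr (B0.compl₁₂ L L)
    (l0 ∘ₗ L + (B0 v) ∘ₗ L + (B0.flip v) ∘ₗ L) (B0 v v + l0 v + k0) (by
      intro P hP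
      rw [h] at hP
      obtain ⟨y, hy, rfl⟩ := hP
      have h1 := hS0 y hy
      have h2 : y = L (e y) + v := by rw [← hL]; simp
      rw [h2] at h1
      simp only [map_add, LinearMap.add_apply] at h1
      simp only [LinearMap.compl₁₂_apply, LinearMap.add_apply, LinearMap.comp_apply,
        LinearMap.flip_apply]
      linarith)
  apply hy1
  have h1 := key (e y1)
  have h2 : y1 = L (e y1) + v := by rw [← hL]; simp
  rw [h2]
  simp only [map_add, LinearMap.add_apply]
  simp only [LinearMap.compl₁₂_apply, LinearMap.add_apply, LinearMap.comp_apply,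
        LinearMap.flip_apply] at h1
  linarith

/-- The first coordinate as a linear map. -/
noncomputable def p0 : E n →ₗ[ℝ] ℝ :=
  ((EuclideanSpace.proj (0 : Fin (n + 1)) : E n →L[ℝ] ℝ) : E n →ₗ[ℝ] ℝ)

theorem p0_apply (x : E n) : p0 x = x 0 := rfl

theorem inner_self_eq (x : E n) : innerₗ (E n) x x = ∑ i, (x i) ^ 2 := by
  rw [innerₗ_apply_apply, real_inner_self_eq_norm_sq, EuclideanSpace.norm_sq_eq]
  simp

theorem recCone_dim (hr : 3 ≤ r) : finrank ℝ (Submodule.span ℝ (recCone (Dom c))) = r := by
  have h1 : Submodule.span ℝ (recCone (Dom c)) = LinearMap.range (incl c) := by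
    apply le_antisymm
    · rw [Submodule.span_le]
      intro d hd
      have hz : ∀ i (j : Fin m), d (c (i, j.succ)) = 0 := by
        intro i
        have h2 : ∀ t : ℝ, 0 ≤ t → 0 < 2 + t * d (c (i, 0)) -
            t ^ 2 * ∑ j : Fin m, (d (c (i, j.succ))) ^ 2 := by
          intro t ht
          have h3 := (hd _ (two_mem c (by omega)) t ht).1 i
          unfold X at h3
          simp only [PiLp.add_apply, PiLp.smul_apply, smul_eq_mul, mkP_zero, mkP_succ,
            Pi.zero_apply, zero_add, mul_pow] at h3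
          rw [← Finset.mul_sum] at h3
          exact h3
        have h3 : ∑ j : Fin m, (d (c (i, j.succ))) ^ 2 = 0 := by
          by_contra hne
          have hS : 0 < ∑ j : Fin m, (d (c (i, j.succ))) ^ 2 :=
            lt_of_le_of_ne (Finset.sum_nonneg fun j _ => sq_nonneg _) (Ne.symm hne)
          obtain ⟨S, hSd⟩ : ∃ S, ∑ j : Fin m, (d (c (i, j.succ))) ^ 2 = S := ⟨_, rfl⟩
          rw [hSd] at h2 hS
          have ha := abs_nonneg (d (c (i, 0)))
          have hda := le_abs_self (d (c (i, 0)))
          have ht : 0 ≤ (|d (c (i, 0))| + 2) / S + 1 := by positivity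
          have h4 := h2 _ ht
          obtain ⟨t, htd⟩ : ∃ t, (|d (c (i, 0))| + 2) / S + 1 = t := ⟨_, rfl⟩
          have h5 : t * S = |d (c (i, 0))| + 2 + S := by
            rw [← htd]; field_simp
          rw [htd] at h4 ht
          have ht1 : 1 ≤ t := by
            rw [← htd]
            have : 0 ≤ (|d (c (i, 0))| + 2) / S := by positivity
            linarith
          have h6 : t ^ 2 * S = t * (|d (c (i, 0))| + 2 + S) := by rw [← h5]; ring
          rw [h6] at h4
          nlinarith
        intro j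
        have h5 := (Finset.sum_eq_zero_iff_of_nonneg fun j _ => sq_nonneg _).1 h3 j
          (Finset.mem_univ j)
        exact pow_eq_zero_iff (two_ne_zero) |>.1 h5
      refine ⟨fun i => d (c (i, 0)), ?_⟩
      apply ext_c c
      · intro i; exact mkP_zero c (fun i => d (c (i, 0))) 0 i
      · intro i j
        rw [hz]
        exact mkP_succ c (fun i => d (c (i, 0))) 0 i j
    · rintro _ ⟨y, rfl⟩
      have hpos : ∀ y : Fin r → ℝ, (∀ i, 0 ≤ y i) → incl c y ∈ recCone (Dom c) := by
        intro y hy P hP t ht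
        have h2 : t • incl c y = mkP c (fun i => t * y i) 0 := by
          rw [← map_smul]; rfl
        have hX : ∀ i, X c (P + t • incl c y) i = X c P i + t * y i := by
          intro i
          rw [h2, X_add]
        have h3 : ∀ i, 0 ≤ t * y i := fun i => mul_nonneg ht (hy i)
        refine ⟨fun i => by rw [hX]; linarith [hP.1 i, h3 i], ?_⟩
        simp_rw [hX]
        exact hP.2.trans_le (Finset.prod_le_prod (fun i _ => (hP.1 i).le)
          (fun i _ => by linarith [h3 i]))
      have h2 : y = (fun i => max (y i) 0) - (fun i => max (-(y i)) 0) := by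
        funext i
        simp only [Pi.sub_apply]
        rcases le_total 0 (y i) with h | h
        · rw [max_eq_left h, max_eq_right (by linarith)]; ring
        · rw [max_eq_right h, max_eq_left (by linarith)]; ring
      rw [h2, map_sub]
      exact Submodule.sub_mem _ (Submodule.subset_span (hpos _ fun i => le_max_right _ _))
        (Submodule.subset_span (hpos _ fun i => le_max_right _ _))
  rw [h1, LinearMap.finrank_range_of_inj, finrank_fin_fun]
  intro x y hxy
  funext i
  have h2 := congrArg (fun P : E n => P (c (i, 0))) hxy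
  have h3 : ∀ y : Fin r → ℝ, (incl c y) (c (i, 0)) = y i := fun y => mkP_zero c y 0 i
  simpa [h3] using h2

end

/-- For all `r ≥ 3` and `m`, in dimension `n + 1 = r (m + 1)` there is a strictly convex domain
with smooth boundary that has the section-centroid collinearity property, whose boundary is not an
ellipsoid, paraboloid or sheet of a hyperboloid, and not even contained in a quadric hypersurface,
and whose recession cone has dimension `r`. -/
theorem result (n r m : ℕ) (hr : 3 ≤ r) (hn : n + 1 = r * (m + 1)) :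
    ∃ Ω : Set (E n), IsStrictlyConvexDomain Ω ∧ HasSmoothBoundary Ω ∧ SCCP n Ω ∧
      ¬ IsEllipsoid (frontier Ω) ∧ ¬ IsParaboloid (frontier Ω) ∧
      ¬ IsHyperboloidSheet (frontier Ω) ∧ InNoQuadric (frontier Ω) ∧
      recDim Ω = r := by
  let c : Fin r × Fin (m + 1) ≃ Fin (n + 1) := finProdFinEquiv.trans (finCongr hn.symm)
  have hr0 : 0 < r := by omega
  refine ⟨Dom c, ⟨isOpen_dom c, ⟨_, two_mem c hr0⟩, ?_, strictConvex_closure c hr0⟩,
    smooth_boundary c hr0, ?_, ?_, ?_, ?_, not_quadric c hr, recCone_dim c hr⟩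
  · have h1 := (strictConvex_closure c hr0).convex.interior
    have h2 : interior (closure (Dom c)) = Dom c := by
      apply Set.Subset.antisymm
      · intro P hP
        by_contra hcon
        have h3 : P ∈ frontier (Dom c) := by
          rw [frontier, (isOpen_dom c).interior_eq]
          exact ⟨interior_subset hP, hcon⟩
        rw [frontier_dom c hr0] at h3
        -- move inwards
        obtain ⟨ε, hε, hball⟩ := Metric.isOpen_iff.1 isOpen_interior P hP
        let v : E n := mkP c (fun _ => 1) 0
        have h4 : Filter.Tendsto (fun t : ℝ => P - t • v) (nhdsWithin 0 (Set.Ioi 0)) (nhds P) := by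
          have h5 : Filter.Tendsto (fun t : ℝ => P - t • v) (nhds 0) (nhds (P - (0 : ℝ) • v)) :=
            (tendsto_const_nhds.sub (Filter.tendsto_id.smul_const v))
          rw [zero_smul, sub_zero] at h5
          exact h5.mono_left nhdsWithin_le_nhds
        have h5 : ∀ᶠ t in nhdsWithin (0 : ℝ) (Set.Ioi 0), P - t • v ∈ closure (Dom c) := by
          filter_upwards [h4.eventually (Metric.ball_mem_nhds P hε)] with t ht
          exact interior_subset (hball ht)
        obtain ⟨t, ht1, ht0⟩ := (h5.and self_mem_nhdsWithin).exists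
        have ht0' : (0 : ℝ) < t := ht0
        rw [closure_dom c hr0] at ht1
        have hX : ∀ i, X c (P - t • v) i = X c P i - t := by
          intro i
          have h6 : P - t • v = P + mkP c (fun _ => -t) 0 := by
            apply ext_c c
            · intro i
              simp [v]
              ring
            · intro i j
              simp [v]
          rw [h6, X_add]
          ring
        have h6 : ∏ i, X c (P - t • v) i < ∏ i, X c P i := by
          refine Finset.prod_lt_prod_of_nonempty (fun i _ => ht1.1 i)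
            (fun i _ => by rw [hX]; linarith) ?_
          exact ⟨⟨0, hr0⟩, Finset.mem_univ _⟩
        rw [h3.2] at h6
        linarith [ht1.2]
      · exact interior_maximal subset_closure (isOpen_dom c)
    rw [h2] at h1
    exact h1
  · intro M hM hb
    exact collinear c hr n M hM (by simp) hb
  · rintro ⟨e, he⟩
    refine not_image c hr e (innerₗ (E n)) 0 (-1) _ ?_ 0 ?_ he
    · intro y hy
      rw [inner_self_eq]
      have : ∑ i, (y i) ^ 2 = 1 := hy
      rw [this]
      simp
    · simp
  · rintro ⟨e, he⟩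
    refine not_image c hr e (innerₗ (E n) - (LinearMap.mul ℝ ℝ).compl₁₂ p0 p0) (-p0) 0 _ ?_
      (WithLp.toLp 2 (Pi.single 0 (-1))) ?_ he
    · intro y hy
      have h1 : y 0 = ∑ i : Fin n, (y i.succ) ^ 2 := hy
      simp only [LinearMap.sub_apply, LinearMap.compl₁₂_apply, LinearMap.mul_apply',
        LinearMap.neg_apply, p0_apply, inner_self_eq]
      rw [Fin.sum_univ_succ, ← h1]
      ring
    · simp only [LinearMap.sub_apply, LinearMap.compl₁₂_apply, LinearMap.mul_apply',
        LinearMap.neg_apply, p0_apply, inner_self_eq]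
      rw [Fin.sum_univ_succ]
      simp
  · rintro ⟨e, he⟩
    refine not_image c hr e ((2 : ℝ) • (LinearMap.mul ℝ ℝ).compl₁₂ p0 p0 - innerₗ (E n)) 0 (-1) _
      ?_ 0 ?_ he
    · intro y hy
      have h1 : (y 0) ^ 2 = 1 + ∑ i : Fin n, (y i.succ) ^ 2 := hy.2
      simp only [LinearMap.sub_apply, LinearMap.compl₁₂_apply, LinearMap.mul_apply',
        LinearMap.smul_apply, p0_apply, inner_self_eq, LinearMap.zero_apply, smul_eq_mul]
      rw [Fin.sum_univ_succ]
      nlinarith
    · simp

end Pool.Agent.Results.MP_d39bc3_gt.CollinearCentroids
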